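import Pool.Agent.helper28.OC.Final

/-!
# MP_09b497_an, Q1: convolution on `ℓ₁(G)` is never open for infinite `G` of bounded exponent
-/

open L1G

namespace Pool.Agent.Results.MP_09b497_an.NotOpen

/-- **Negative answer to Q1.** For every infinite group `G` of bounded exponent the convolution
`ℓ₁(G) × ℓ₁(G) → ℓ₁(G)` is not an open map. -/
theorem result {G : Type*} [Group G] [Infinite G] (hG : ∃ n : ℕ, 1 ≤ n ∧ ∀ g : G, g ^ n = 1) :
    ¬ IsOpenMap fun q : L1 G × L1 G => conv q.1 q.2 := by
  obtain ⟨n, hn, hG⟩ := hG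
  exact Pool.Agent.helper28.OC.final hn hG

end Pool.Agent.Results.MP_09b497_an.NotOpen
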