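import Pool.Agent.helper28.L1.Growth

/-!
# MP_09b497_an, Q2: convolution on `ℓ₁(G)` is never uniformly open for infinite `G`

For every infinite group `G` (of bounded exponent or not), every `ε > 0` and every `δ > 0` there
are `a, b ∈ ℓ₁(G)` such that `B(ab, δ)` is not contained in `B(a, ε) B(b, ε)`.

Idea.  If `a` acts on `ℓ₂(G)` with lower bound `ε + 1`, then every `u` with `‖u - a‖₁ < ε` acts
injectively, so `uv = 0` forces `v = 0`.  Hence `0 ∈ B(ab, δ) ⊆ B(a, ε) B(b, ε)` would give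
`‖b‖₁ < ε`.  But on every infinite group there are finitely supported `a` with lower bound `1` on
`ℓ₂(G)` and `b ≠ 0` with `‖ab‖₁ / ‖b‖₁` arbitrarily small.
-/

open scoped ENNReal
open L1G

namespace Pool.Agent.Results.MP_09b497_an.NotUniformlyOpen

variable {G : Type*}

/-- finitely supported elements as elements of `ℓ₁(G)` -/
noncomputable def toL1 (f : MonoidAlgebra ℂ G) : L1 G :=
  ⟨fun x => f.coeff x, memlp_of_summable (summable_coeff f)⟩

theorem toL1_apply (f : MonoidAlgebra ℂ G) (x : G) : toL1 f x = f.coeff x := rfl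

theorem norm_toL1 (f : MonoidAlgebra ℂ G) : ‖toL1 f‖ = N f := by
  rw [norm_eq]; rfl

variable [Group G]

theorem conv_toL1 (a b : MonoidAlgebra ℂ G) : conv (toL1 a) (toL1 b) = toL1 (a * b) := by
  classical
  ext x
  have h1 : a * b = ∑ y ∈ a.coeff.support, MonoidAlgebra.single y (a.coeff y) * b := by
    conv_lhs => rw [← MonoidAlgebra.sum_coeff_single a]
    rw [Finsupp.sum, Finset.sum_mul]
  rw [conv_apply, toL1_apply, h1]
  rw [tsum_eq_sum (s := a.coeff.support)]
  · simp [toL1_apply, MonoidAlgebra.coeff_single_mul_apply, MonoidAlgebra.coeff_sum]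
  · intro y hy
    have : a.coeff y = 0 := by simpa using hy
    simp [toL1_apply, this]

theorem act_toL1 (a : MonoidAlgebra ℂ G) (f : L2 G) : act (toL1 a) f = Lam a f := by
  classical
  have h1 : a = ∑ y ∈ a.coeff.support, MonoidAlgebra.single y (a.coeff y) := by
    conv_lhs => rw [← MonoidAlgebra.sum_coeff_single a]
    rfl
  conv_rhs => rw [h1]
  rw [map_sum, sum_apply, act, tsum_eq_sum (s := a.coeff.support)]
  · refine Finset.sum_congr rfl fun y _ => ?_
    rw [Lam_single]; rfl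
  · intro y hy
    have : a.coeff y = 0 := by simpa using hy
    simp [toL1_apply, this]

/-- **Negative answer to Q2, for all infinite groups.** -/
theorem result {G : Type*} [Group G] [Infinite G] (ε δ : ℝ) (hε : 0 < ε) (hδ : 0 < δ) :
    ∃ a b : L1 G, ¬ Metric.ball (conv a b) δ ⊆
      Set.image2 conv (Metric.ball a ε) (Metric.ball b ε) := by
  obtain ⟨n, hn⟩ := exists_pow_lt_of_lt_one (x := δ / ((ε + 1) * ε)) (y := (48/49 : ℝ))
    (by positivity) (by norm_num)
  obtain ⟨a₀, b₀, ha₀, hb₀, h⟩ := exists_growth (G := G) n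
  have hNb : 0 < N b₀ := N_pos hb₀
  set r : ℝ := ε / N b₀ with hr
  have hrpos : 0 < r := by positivity
  have hratio : N (a₀ * b₀) ≤ (48/49 : ℝ) ^ n * N b₀ := by
    have h2 : (48/49 : ℝ) ^ n * (49/48 : ℝ) ^ n = 1 := by rw [← mul_pow]; norm_num
    calc N (a₀ * b₀) = (48/49 : ℝ) ^ n * ((49/48 : ℝ) ^ n * N (a₀ * b₀)) := by
          rw [← mul_assoc, h2, one_mul]
      _ ≤ _ := by gcongr
  refine ⟨toL1 (((ε + 1 : ℝ) : ℂ) • a₀), toL1 ((r : ℂ) • b₀), fun hsub => ?_⟩
  have hnormab : ‖conv (toL1 (((ε + 1 : ℝ) : ℂ) • a₀)) (toL1 ((r : ℂ) • b₀))‖ < δ := by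
    rw [conv_toL1, norm_toL1, smul_mul_smul_comm, N_smul, norm_mul, Complex.norm_real,
      Complex.norm_real, Real.norm_of_nonneg (by positivity : (0:ℝ) ≤ ε + 1),
      Real.norm_of_nonneg hrpos.le]
    calc (ε + 1) * r * N (a₀ * b₀) ≤ (ε + 1) * r * ((48/49 : ℝ) ^ n * N b₀) := by gcongr
      _ = (48/49 : ℝ) ^ n * ((ε + 1) * ε) := by rw [hr]; field_simp
      _ < δ := by rwa [lt_div_iff₀ (by positivity)] at hn
  have h0 : (0 : L1 G) ∈ Metric.ball (conv (toL1 (((ε + 1 : ℝ) : ℂ) • a₀)) (toL1 ((r : ℂ) • b₀))) δ := by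
    rw [Metric.mem_ball, dist_eq_norm, zero_sub, norm_neg]; exact hnormab
  obtain ⟨u, hu, v, hv, huv⟩ := hsub h0
  rw [Metric.mem_ball, dist_eq_norm] at hu hv
  have huv' : conv u v = 0 := huv
  have hact : act u (toL2 v) = 0 := by
    rw [act_toL2, huv']
    ext x; simp
  have hlow : (ε + 1) * ‖toL2 v‖ ≤ ‖act (toL1 (((ε + 1 : ℝ) : ℂ) • a₀)) (toL2 v)‖ := by
    rw [act_toL1, map_smul, smul_apply, norm_smul, Complex.norm_real,
      Real.norm_of_nonneg (by positivity : (0:ℝ) ≤ ε + 1)]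
    exact mul_le_mul_of_nonneg_left (ha₀ _) (by positivity)
  have hup : ‖act (toL1 (((ε + 1 : ℝ) : ℂ) • a₀)) (toL2 v)‖ ≤ ε * ‖toL2 v‖ := by
    have e : act (toL1 (((ε + 1 : ℝ) : ℂ) • a₀)) (toL2 v) =
        - act (u - toL1 (((ε + 1 : ℝ) : ℂ) • a₀)) (toL2 v) := by
      rw [act_sub, hact]; simp
    rw [e, norm_neg]
    refine (norm_act_le _ _).trans ?_
    gcongr
  have hv0 : ‖toL2 v‖ = 0 := by
    have := norm_nonneg (toL2 v)
    nlinarith
  have hv1 : v = 0 := by
    ext x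
    have := norm_eq_zero.1 hv0
    have h2 : toL2 v x = 0 := by rw [this]; simp
    simpa using h2
  rw [hv1, zero_sub, norm_neg, norm_toL1, N_smul, Complex.norm_real,
    Real.norm_of_nonneg hrpos.le, hr] at hv
  have : ε / N b₀ * N b₀ = ε := by field_simp
  rw [this] at hv
  exact lt_irrefl _ hv

end Pool.Agent.Results.MP_09b497_an.NotUniformlyOpen
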